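import Mathlib
import Pool.Agent.Helper36.SPR.St

set_option autoImplicit false

namespace Pool.Agent.Helper68.SPR

open Pool.Agent.Helper36.SPR
open Finset
open scoped Pointwise

theorem np_proj (m n T : ℕ) [NeZero m] [NeZero n] (hmn : m ∣ n) (j : ℕ) :
    ∀ u : ZMod m, (∑ x ∈ (univ : Finset (ZMod n)).filter
      (fun x => (ZMod.castHom hmn (ZMod m)) x = u), nu n T j x) = nu m T j u := by
  have h2 : (ZMod.castHom hmn (ZMod m)) 2 = 2 := map_ofNat _ 2
  induction j with
  | zero =>
    intro u
    rw [Finset.sum_filter]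
    simp only [nu]
    rw [Finset.sum_eq_single (0 : ZMod n)]
    · rw [map_zero]
      by_cases h : u = 0
      · subst h; simp
      · rw [if_neg (Ne.symm h), if_neg h]
    · intro b _ hb
      rw [if_neg hb]
      simp
    · intro h
      exact absurd (mem_univ _) h
  | succ j ih =>
    intro u
    simp only [nu]
    rw [← Finset.sum_div]
    congr 1
    rw [Finset.sum_comm]
    refine Finset.sum_congr rfl fun i _ => ?_
    rw [Finset.sum_comm]
    refine Finset.sum_congr rfl fun i' _ => ?_
    rw [← ih (u - 2 ^ i + 2 ^ i')]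
    refine Finset.sum_nbij' (fun x => x - 2 ^ i + 2 ^ i') (fun x => x + 2 ^ i - 2 ^ i')
      ?_ ?_ ?_ ?_ ?_
    · intro x hx
      simp only [mem_filter, mem_univ, true_and] at hx ⊢
      rw [map_add, map_sub, map_pow, map_pow, hx, h2]
    · intro x hx
      simp only [mem_filter, mem_univ, true_and] at hx ⊢
      rw [map_sub, map_add, map_pow, map_pow, hx, h2]
      ring
    · intro x _
      ring
    · intro x _
      ring
    · intro x _
      rfl

theorem hNP (hNA : StNA) : StNP := by
  intro m n T _ _ hmn hT j
  have h1 : ∀ u : ZMod m, ∑ x ∈ (univ : Finset (ZMod n)).filter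
      (fun x => (ZMod.cast x : ZMod m) = u), nu n T j x = nu m T j u := by
    intro u
    rw [← np_proj m n T hmn j u]
    refine Finset.sum_congr ?_ fun _ _ => rfl
    ext x
    rw [mem_filter, mem_filter, ZMod.castHom_apply]
  refine ⟨h1, ?_⟩
  unfold bet
  rw [← h1 0]
  refine Finset.single_le_sum (f := fun x => nu n T j x) (fun x _ => (hNA n T hT j).1 x) ?_
  simp

end Pool.Agent.Helper68.SPR
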